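import Mathlib
import Pool.Agent.W5h18.ColInd.Exist

set_option autoImplicit false

open Cardinal

universe u

namespace Pool.Agent.Results.MP_279ba3_co.InducedGap

/-- The colouring number of a graph: the least cardinal `κ` such that some well-ordering of the
vertices has the property that every vertex has fewer than `κ` smaller neighbours. -/
noncomputable def col {V : Type u} (G : SimpleGraph V) : Cardinal.{u} :=
  sInf {κ : Cardinal.{u} | ∃ r : V → V → Prop, IsWellOrder V r ∧
    ∀ x : V, #{y : V // G.Adj x y ∧ r y x} < κ}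

/-- For every integer `n ≥ 5` there is a graph `G` with colouring number `n + 1` which has no
induced subgraph with colouring number `n`. More precisely, an induced subgraph of `G` has
colouring number `n + 1` if it omits only finitely many vertices, and otherwise it has colouring
number at most `n - 1`. -/
theorem result (n : ℕ) (hn : 5 ≤ n) : ∃ (V : Type) (G : SimpleGraph V),
    col G = (n : Cardinal.{0}) + 1 ∧
    (∀ W : Set V, col (G.induce W) ≠ (n : Cardinal.{0})) ∧
    (∀ W : Set V, Wᶜ.Finite → col (G.induce W) = (n : Cardinal.{0}) + 1) ∧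
    (∀ W : Set V, Wᶜ.Infinite → col (G.induce W) ≤ ((n - 1 : ℕ) : Cardinal.{0})) := by
  obtain ⟨r, rfl⟩ : ∃ r, n = 5 + r := ⟨n - 5, by omega⟩
  obtain ⟨I, _, _, _, hct, hbd⟩ := Pool.Agent.W5h18.ColInd.exists_omega1
  obtain ⟨S, hS⟩ := Pool.Agent.W5h18.ColInd.exists_sys hct r
  have hupU := Pool.Agent.W5h18.ColInd.upper S
  have hup : ∀ W : Set (Pool.Agent.W5h18.ColInd.Vx I r),
      ColoringNumberStep.Free S.G ∅ W (5 + r) := fun W =>
    hupU.mono (fun v _ w h _ => h) (Set.Subset.refl _) (Set.subset_univ _) le_rfl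
  have hlow : ∀ W : Set (Pool.Agent.W5h18.ColInd.Vx I r), Wᶜ.Finite →
      ¬ ColoringNumberStep.Free S.G ∅ W (4 + r) := by
    intro W hW
    apply Pool.Agent.W5h18.ColInd.not_free S _ hbd W hW
    intro h b
    rw [hS]
    exact Pool.Agent.W5h18.ColInd.club_good hct hbd h b
  have hco : ∀ W : Set (Pool.Agent.W5h18.ColInd.Vx I r), Wᶜ.Infinite →
      ColoringNumberStep.Free S.G ∅ W (r + 3) :=
    fun W hW => Pool.Agent.W5h18.ColInd.coinf_case S hct hbd W hW
  have hcoleq : ∀ (V : Type) (G : SimpleGraph V), col G = ColoringNumberStep.col G :=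
    fun V G => rfl
  have hfin : ∀ W : Set (Pool.Agent.W5h18.ColInd.Vx I r), Wᶜ.Finite →
      col (S.G.induce W) = ((5 + r : ℕ) : Cardinal.{0}) + 1 := by
    intro W hW
    rw [hcoleq]
    have h1 := hup W
    rw [← Pool.Agent.H212R4.IndCol.free_induce, ← ColoringNumberStep.col_le_iff] at h1
    have h2 := hlow W hW
    rw [← Pool.Agent.H212R4.IndCol.free_induce, ← ColoringNumberStep.col_le_iff, not_le] at h2
    apply le_antisymm
    · refine h1.trans (le_of_eq ?_)
      push_cast
      ring
    · rw [← Cardinal.succ_natCast]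
      apply Order.succ_le_of_lt
      have h3 : (4 + r + 1 : ℕ) = 5 + r := by omega
      rw [h3] at h2
      exact h2
  have hinf : ∀ W : Set (Pool.Agent.W5h18.ColInd.Vx I r), Wᶜ.Infinite →
      col (S.G.induce W) ≤ ((5 + r - 1 : ℕ) : Cardinal.{0}) := by
    intro W hW
    rw [hcoleq]
    have h1 := hco W hW
    rw [← Pool.Agent.H212R4.IndCol.free_induce, ← ColoringNumberStep.col_le_iff] at h1
    have h3 : (r + 3 + 1 : ℕ) = 5 + r - 1 := by omega
    rw [h3] at h1
    exact h1
  refine ⟨Pool.Agent.W5h18.ColInd.Vx I r, S.G, ?_, ?_, hfin, hinf⟩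
  · have h1 := hfin Set.univ (by simp)
    rw [← h1, hcoleq, hcoleq]
    symm
    apply ColoringNumberStep.col_iso
    exact ⟨Equiv.Set.univ _, Iff.rfl⟩
  · intro W
    by_cases hW : Wᶜ.Finite
    · rw [hfin W hW]
      exact_mod_cast (by omega : 5 + r + 1 ≠ 5 + r)
    · have h1 := hinf W hW
      intro h2
      rw [h2] at h1
      have h3 : 5 + r ≤ 5 + r - 1 := by exact_mod_cast h1
      omega

end Pool.Agent.Results.MP_279ba3_co.InducedGap
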